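import Pool.Agent.H510R3.PQ2

set_option autoImplicit false

namespace Pool.Agent.Results.MP_7eb8f3_nt.NoQuadruples

open Pool.Agent.H510R3.PQ

/-- `a` is an `S`-Diophantine tuple: its members are distinct positive integers and every prime
dividing a product of two different members plus one lies in `S`. -/
def Diophantine (S : Set ℕ) {m : ℕ} (a : Fin m → ℕ) : Prop :=
  Function.Injective a ∧ (∀ i, 0 < a i) ∧
    ∀ i j, i ≠ j → ∀ l : ℕ, l.Prime → l ∣ a i * a j + 1 → l ∈ S

/-- a number whose prime divisors are among `p`, `q` is `p ^ i * q ^ j` -/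
theorem pq_form {p q : ℕ} (hp : p.Prime) (hq : q.Prime) (n : ℕ) (hn : n ≠ 0)
    (h : ∀ l : ℕ, l.Prime → l ∣ n → l ∈ ({p, q} : Set ℕ)) : ∃ i j : ℕ, n = p ^ i * q ^ j := by
  induction n using Nat.strong_induction_on with
  | _ n ih =>
    by_cases h1 : n = 1
    · exact ⟨0, 0, by simp [h1]⟩
    · have hl := Nat.minFac_prime h1
      have hd := Nat.minFac_dvd n
      obtain ⟨m, hm⟩ := hd
      have hm0 : m ≠ 0 := by
        intro hz; rw [hz, mul_zero] at hm; exact hn hm
      have hlt : m < n := by
        rw [hm]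
        calc m < 2 * m := by omega
          _ ≤ n.minFac * m := Nat.mul_le_mul_right _ hl.two_le
      obtain ⟨i, j, hij⟩ := ih m hlt hm0 (fun l hl' hd' => h l hl' (by rw [hm]; exact hd'.mul_left _))
      have hmem := h _ hl (Nat.minFac_dvd n)
      rcases hmem with h2 | h2
      · refine ⟨i + 1, j, ?_⟩
        rw [hm, h2, hij]; ring
      · have h2' : n.minFac = q := h2
        refine ⟨i, j + 1, ?_⟩
        rw [hm, h2', hij]; ring

/-- **There is no `{p, q}`-Diophantine quadruple**, for any two distinct primes `p`, `q`, Wieferich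
pair or not and whatever their residues modulo `4`. -/
theorem result : ∀ p q : ℕ, p.Prime → q.Prime → p ≠ q →
    ¬ ∃ a : Fin 4 → ℕ, Diophantine {p, q} a := by
  rintro p q hp hq hpq ⟨a, hinj, hpos, hdiv⟩
  -- all products plus one are of the form `p ^ i * q ^ j`
  have hf : ∀ i j, i ≠ j → ∃ x y : ℕ, a i * a j + 1 = p ^ x * q ^ y := fun i j hij =>
    pq_form hp hq _ (by omega) (hdiv i j hij)
  -- sort the members
  let s : Finset ℕ := Finset.univ.image a
  have hs : s.card = 4 := by
    rw [Finset.card_image_of_injective _ hinj, Finset.card_univ, Fintype.card_fin]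
  let b : Fin 4 ↪o ℕ := s.orderEmbOfFin hs
  have hb : ∀ k, ∃ i, a i = b k := by
    intro k
    have : b k ∈ s := Finset.orderEmbOfFin_mem s hs k
    obtain ⟨i, _, hi⟩ := Finset.mem_image.1 this
    exact ⟨i, hi⟩
  have hg : ∀ k l, k ≠ l → ∃ x y : ℕ, b k * b l + 1 = p ^ x * q ^ y := by
    intro k l hkl
    obtain ⟨i, hi⟩ := hb k
    obtain ⟨j, hj⟩ := hb l
    rw [← hi, ← hj]
    refine hf i j ?_
    rintro rfl
    exact hkl (b.injective (by rw [← hi, ← hj]))
  have h0 : 0 < b 0 := by
    obtain ⟨i, hi⟩ := hb 0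
    rw [← hi]; exact hpos i
  exact no_quadruple hp hq hpq h0 (b.strictMono (by decide)) (b.strictMono (by decide))
    (b.strictMono (by decide)) (hg 0 1 (by decide)) (hg 0 2 (by decide)) (hg 0 3 (by decide))
    (hg 1 2 (by decide)) (hg 1 3 (by decide)) (hg 2 3 (by decide))

end Pool.Agent.Results.MP_7eb8f3_nt.NoQuadruples
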